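import Pool.Agent.H47.KSU.Final

/-!
# Almost no set is a k-spectrum: `n_k ≤ 2 ^ (k.choose 2 - k ^ (13 / 12))`

Definitions are in `Pool/Agent/H37/SP/Defs.lean` (`ecount`, `spec`, `Realizable`, `nk`).
-/

set_option autoImplicit false

namespace Pool.Agent.Results.MP_90d669_co.AlmostNoSetIsASpectrum

open Pool.Agent.H37.SP

/-- For all large `k` the number `n_k` of realizable `k`-spectra is at most
`2 ^ (k.choose 2 - k ^ (13 / 12))`. -/
theorem result : ∃ k₀ : ℕ, ∀ k ≥ k₀,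
    (nk k : ℝ) ≤ (2 : ℝ) ^ ((k.choose 2 : ℝ) - (k : ℝ) ^ (13 / 12 : ℝ)) :=
  Pool.Agent.H47.KSU.final

end Pool.Agent.Results.MP_90d669_co.AlmostNoSetIsASpectrum
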