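import Pool.Agent.H57.KS.Asm

/-!
# The number of realizable k-spectra is at least `2 ^ (c k ^ (9/8))`

Definitions are in `Pool/Agent/H37/SP/Defs.lean` (`ecount`, `spec`, `Realizable`, `nk`).
-/

set_option autoImplicit false

namespace Pool.Agent.Results.MP_90d669_co.ExponentNineEighths

open Pool.Agent.H37.SP

/-- For every `k ≥ 2` the number `n_k` of realizable `k`-spectra is at least
`2 ^ (k ^ (9/8) / (4 · 10 ^ 7))`. -/
theorem result (k : ℕ) (hk : 2 ≤ k) :
    (2 : ℝ) ^ ((k : ℝ) ^ (9 / 8 : ℝ) / (4 * 10 ^ 7)) ≤ (nk k : ℝ) :=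
  Pool.Agent.H57.KS.final' k hk

end Pool.Agent.Results.MP_90d669_co.ExponentNineEighths
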